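import Pool.Agent.Lib.MP_1f45fc_nt.T.Assemble

set_option autoImplicit false

namespace Pool.Agent.MP1f45fc.T.TreeC

def C2r : List Goal := [⟨[0, 1, 0, 1, 0, 1, 0, 1, 0, 1, 0, 1, 0, 1, 0, 1], 19, [0, 1, 0, 1, 0, 1, 0, 1, 0, 1, 0, 1, 0, 1, 0, 1, 0, 1, 0], 8618251311, 8703398824⟩,
  ⟨[0, 1, 0, 1, 0, 1, 0, 1, 0, 1, 0, 1, 0, 1, 0, 1], 19, [1, 0, 1, 0, 1, 0, 1, 0, 1, 0, 1, 0, 1, 0, 1, 0, 1, 0, 1], 8618251311, 8703398824⟩]

def C2o : List Goal := [⟨[0, 1, 0, 1, 0, 1, 0, 1, 0, 1, 0, 1, 0, 1, 0, 1], 19, [0, 1, 0, 1, 0, 1, 0, 1, 0, 1, 0, 1, 0, 1, 0, 1, 0, 1, 0, 1], 8618251311, 8703398824⟩,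
  ⟨[0, 1, 0, 1, 0, 1, 0, 1, 0, 1, 0, 1, 0, 1, 0, 1], 19, [1, 0, 1, 0, 1, 0, 1, 0, 1, 0, 1, 0, 1, 0, 1, 0, 1, 0, 1, 0], 8618251311, 8703398824⟩]

def C2p0 : List I := [.B 1 1 2 (.su 2) (.M [(274690, 282754)]),
  .O,
  .B 1 1 1 (.su 1) (.M [(1124880644, 1158951044)]),
  .B 1 2 1 (.su 2) (.M [(72026444037, 74173927557)]),
  .B 1 1 1 (.su 1) (.M [(4345234210686192940555, 6596323660675120598667)]),
  .B 1 2 1 (.su 2) (.M [(297434167404434189751948, 25653179528269960)]),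
  .Q 18872220398145928,
  .B 1 0 2 .nn (.M [(1124880772, 1192505476)]),
  .O,
  .B 1 1 2 (.su 2) (.M [(17584387, 18108547)]),
  .B 1 1 1 (.su 2) (.M [(4649750728420790374795, 81875735964522123402)]),
  .B 1 1 2 (.su 2) (.M [(1124348164, 1158418564)]),
  .Q 316328208966318621438348,
  .B 1 1 2 (.su 1) (.M [(4649714699761143787787, 5094813895183503716235)]),
  .Q 74038660741,
  .B 1 2 2 (.su 2) (.M [(67696341253, 74138791813)]),
  .Q 20245005373844668765982221,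
  .B 1 2 1 (.su 1) (.M [(12980086903736702944409357, 363591117080547041195020)]),
  .Q 294601488084743,
  .B 1 1 1 (.su 1) (.M [(4647408856754213917067, 1281604431783399305)]),
  .B 1 2 1 (.su 2) (.M [(4495150034940232283403, 6294147870547631648523)]),
  .B 1 1 2 (.su 1) (.M [(1135184252803756297, 74138259589)]),
  .Q 4600899580294,
  .B 1 2 1 (.su 2) (.M [(18881293483561608, 21167719459868808)]),
  .Q 316475818956087011045772]

theorem C2_ok : check ⟨64, true, 0, 21⟩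
    (C2p0) C2r C2o = true := by
  decide +kernel

theorem C2_imp : Imp 0 21 C2r C2o :=
  Imp.of_check C2_ok (Or.inl rfl) le_rfl

end Pool.Agent.MP1f45fc.T.TreeC
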