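import Pool.Agent.Lib.MP_1f45fc_nt.T.Assemble
import Pool.Agent.Lib.MP_1f45fc_nt.TreeC.C24x0
import Pool.Agent.Lib.MP_1f45fc_nt.TreeC.C24x1
import Pool.Agent.Lib.MP_1f45fc_nt.TreeC.C24x2
import Pool.Agent.Lib.MP_1f45fc_nt.TreeC.C24xM

set_option autoImplicit false

namespace Pool.Agent.MP1f45fc.T.TreeC

def C24xown : List Goal := [⟨[0, 0, 0, 0, 0, 0, 0, 0, 0, 0, 0, 0, 0, 0, 0, 0, 0, 0, 0, 0, 0, 0, 0, 1, 0, 0, 0, 0, 0, 0, 0, 0, 0, 0, 0, 0], 38, [0, 0, 0, 0, 0, 0, 0, 0, 0, 0, 0, 0, 0, 0, 1, 0, 0, 0, 0, 0, 0, 0, 0, 0, 0, 0, 0, 0, 0, 0, 0, 0, 0, 0, 0, 0, 0, 0, 1], 8618253967, 8703398820⟩]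

def C24xR : List Goal :=
  C24x0r ++
  (C24x1r ++
  (C24x2r))

def C24xC : List Goal :=
  C24x0o ++
  (C24x1o ++
  (C24x2o))

def C24xouts : List Goal := C24xown ++ C24xC

theorem C24x_groups : Imp 0 41 C24xR C24xC :=
    Imp.app (Imp.of_check C24x0_ok (Or.inl rfl) le_rfl) (
    Imp.app (Imp.of_check C24x1_ok (Or.inl rfl) le_rfl) (
    Imp.of_check C24x2_ok (Or.inl rfl) le_rfl))

theorem C24x_imp : Imp 0 41 C24xMr C24xouts :=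
  (Imp.of_check C24xM_ok (Or.inl rfl) le_rfl).glue C24x_groups (by decide +kernel)

end Pool.Agent.MP1f45fc.T.TreeC
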