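import Pool.Agent.Lib.MP_1f45fc_nt.T.Assemble
import Pool.Agent.Lib.MP_1f45fc_nt.TreeC.C25x0
import Pool.Agent.Lib.MP_1f45fc_nt.TreeC.C25x1
import Pool.Agent.Lib.MP_1f45fc_nt.TreeC.C25x2
import Pool.Agent.Lib.MP_1f45fc_nt.TreeC.C25x3
import Pool.Agent.Lib.MP_1f45fc_nt.TreeC.C25xM

set_option autoImplicit false

namespace Pool.Agent.MP1f45fc.T.TreeC

def C25xown : List Goal := [⟨[0, 0, 0, 0, 0, 0, 0, 0, 0, 0, 0, 0, 0, 0, 0, 0, 0, 0, 0, 0, 0, 0, 0, 0, 1, 0, 0, 0, 0, 0, 0, 0, 0, 0, 0, 0], 38, [0, 0, 0, 0, 0, 0, 0, 0, 0, 0, 0, 0, 0, 1, 0, 0, 0, 0, 0, 0, 0, 0, 0, 0, 0, 0, 0, 0, 0, 0, 0, 0, 0, 0, 0, 0, 0, 0, 1], 8618253967, 8703398820⟩]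

def C25xR : List Goal :=
  C25x0r ++
  (C25x1r ++
  (C25x2r ++
  (C25x3r)))

def C25xC : List Goal :=
  C25x0o ++
  (C25x1o ++
  (C25x2o ++
  (C25x3o)))

def C25xouts : List Goal := C25xown ++ C25xC

theorem C25x_groups : Imp 0 41 C25xR C25xC :=
    Imp.app (Imp.of_check C25x0_ok (Or.inl rfl) le_rfl) (
    Imp.app (Imp.of_check C25x1_ok (Or.inl rfl) le_rfl) (
    Imp.app (Imp.of_check C25x2_ok (Or.inl rfl) le_rfl) (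
    Imp.of_check C25x3_ok (Or.inl rfl) le_rfl)))

theorem C25x_imp : Imp 0 41 C25xMr C25xouts :=
  (Imp.of_check C25xM_ok (Or.inl rfl) le_rfl).glue C25x_groups (by decide +kernel)

end Pool.Agent.MP1f45fc.T.TreeC
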