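import Pool.Agent.Lib.MP_1f45fc_nt.T.Assemble
import Pool.Agent.Lib.MP_1f45fc_nt.TreeC.C26x0
import Pool.Agent.Lib.MP_1f45fc_nt.TreeC.C26x1
import Pool.Agent.Lib.MP_1f45fc_nt.TreeC.C26x2
import Pool.Agent.Lib.MP_1f45fc_nt.TreeC.C26x3
import Pool.Agent.Lib.MP_1f45fc_nt.TreeC.C26x4
import Pool.Agent.Lib.MP_1f45fc_nt.TreeC.C26x5
import Pool.Agent.Lib.MP_1f45fc_nt.TreeC.C26xM

set_option autoImplicit false

namespace Pool.Agent.MP1f45fc.T.TreeC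

def C26xown : List Goal := [⟨[0, 0, 0, 0, 0, 0, 0, 0, 0, 0, 0, 0, 0, 0, 0, 0, 0, 0, 0, 0, 0, 0, 0, 0, 0, 1, 0, 0, 0, 0, 0, 0, 0, 0, 0, 0], 38, [0, 0, 0, 0, 0, 0, 0, 0, 0, 0, 0, 0, 1, 0, 0, 0, 0, 0, 0, 0, 0, 0, 0, 0, 0, 0, 0, 0, 0, 0, 0, 0, 0, 0, 0, 0, 0, 0, 1], 8618253967, 8703398820⟩]

def C26xR : List Goal :=
  C26x0r ++
  (C26x1r ++
  (C26x2r ++
  (C26x3r ++
  (C26x4r ++
  (C26x5r)))))

def C26xC : List Goal :=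
  C26x0o ++
  (C26x1o ++
  (C26x2o ++
  (C26x3o ++
  (C26x4o ++
  (C26x5o)))))

def C26xouts : List Goal := C26xown ++ C26xC

theorem C26x_groups : Imp 0 41 C26xR C26xC :=
    Imp.app (Imp.of_check C26x0_ok (Or.inl rfl) le_rfl) (
    Imp.app (Imp.of_check C26x1_ok (Or.inl rfl) le_rfl) (
    Imp.app (Imp.of_check C26x2_ok (Or.inl rfl) le_rfl) (
    Imp.app (Imp.of_check C26x3_ok (Or.inl rfl) le_rfl) (
    Imp.app (Imp.of_check C26x4_ok (Or.inl rfl) le_rfl) (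
    Imp.of_check C26x5_ok (Or.inl rfl) le_rfl)))))

theorem C26x_imp : Imp 0 41 C26xMr C26xouts :=
  (Imp.of_check C26xM_ok (Or.inl rfl) le_rfl).glue C26x_groups (by decide +kernel)

end Pool.Agent.MP1f45fc.T.TreeC
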