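import Pool.Agent.Lib.MP_1f45fc_nt.T.Assemble
import Pool.Agent.Lib.MP_1f45fc_nt.TreeC.C27x0
import Pool.Agent.Lib.MP_1f45fc_nt.TreeC.C27x1
import Pool.Agent.Lib.MP_1f45fc_nt.TreeC.C27x2
import Pool.Agent.Lib.MP_1f45fc_nt.TreeC.C27x3
import Pool.Agent.Lib.MP_1f45fc_nt.TreeC.C27x4
import Pool.Agent.Lib.MP_1f45fc_nt.TreeC.C27x5
import Pool.Agent.Lib.MP_1f45fc_nt.TreeC.C27xM

set_option autoImplicit false

namespace Pool.Agent.MP1f45fc.T.TreeC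

def C27xown : List Goal := [⟨[0, 0, 0, 0, 0, 0, 0, 0, 0, 0, 0, 0, 0, 0, 0, 0, 0, 0, 0, 0, 0, 0, 0, 0, 0, 0, 1, 0, 0, 0, 0, 0, 0, 0, 0, 0], 38, [0, 0, 0, 0, 0, 0, 0, 0, 0, 0, 0, 1, 0, 0, 0, 0, 0, 0, 0, 0, 0, 0, 0, 0, 0, 0, 0, 0, 0, 0, 0, 0, 0, 0, 0, 0, 0, 0, 1], 8618253967, 8703398820⟩]

def C27xR : List Goal :=
  C27x0r ++
  (C27x1r ++
  (C27x2r ++
  (C27x3r ++
  (C27x4r ++
  (C27x5r)))))

def C27xC : List Goal :=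
  C27x0o ++
  (C27x1o ++
  (C27x2o ++
  (C27x3o ++
  (C27x4o ++
  (C27x5o)))))

def C27xouts : List Goal := C27xown ++ C27xC

theorem C27x_groups : Imp 0 41 C27xR C27xC :=
    Imp.app (Imp.of_check C27x0_ok (Or.inl rfl) le_rfl) (
    Imp.app (Imp.of_check C27x1_ok (Or.inl rfl) le_rfl) (
    Imp.app (Imp.of_check C27x2_ok (Or.inl rfl) le_rfl) (
    Imp.app (Imp.of_check C27x3_ok (Or.inl rfl) le_rfl) (
    Imp.app (Imp.of_check C27x4_ok (Or.inl rfl) le_rfl) (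
    Imp.of_check C27x5_ok (Or.inl rfl) le_rfl)))))

theorem C27x_imp : Imp 0 41 C27xMr C27xouts :=
  (Imp.of_check C27xM_ok (Or.inl rfl) le_rfl).glue C27x_groups (by decide +kernel)

end Pool.Agent.MP1f45fc.T.TreeC
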