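import Pool.Agent.Lib.MP_1f45fc_nt.T.Assemble
import Pool.Agent.Lib.MP_1f45fc_nt.TreeC.C28x0
import Pool.Agent.Lib.MP_1f45fc_nt.TreeC.C28x1
import Pool.Agent.Lib.MP_1f45fc_nt.TreeC.C28x2
import Pool.Agent.Lib.MP_1f45fc_nt.TreeC.C28x3
import Pool.Agent.Lib.MP_1f45fc_nt.TreeC.C28x4
import Pool.Agent.Lib.MP_1f45fc_nt.TreeC.C28x5
import Pool.Agent.Lib.MP_1f45fc_nt.TreeC.C28x6
import Pool.Agent.Lib.MP_1f45fc_nt.TreeC.C28x7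
import Pool.Agent.Lib.MP_1f45fc_nt.TreeC.C28x8
import Pool.Agent.Lib.MP_1f45fc_nt.TreeC.C28xM

set_option autoImplicit false

namespace Pool.Agent.MP1f45fc.T.TreeC

def C28xown : List Goal := [⟨[0, 0, 0, 0, 0, 0, 0, 0, 0, 0, 0, 0, 0, 0, 0, 0, 0, 0, 0, 0, 0, 0, 0, 0, 0, 0, 0, 1, 0, 0, 0, 0, 0, 0, 0, 0], 38, [0, 0, 0, 0, 0, 0, 0, 0, 0, 0, 1, 0, 0, 0, 0, 0, 0, 0, 0, 0, 0, 0, 0, 0, 0, 0, 0, 0, 0, 0, 0, 0, 0, 0, 0, 0, 0, 0, 1], 8618253967, 8703398820⟩]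

def C28xR : List Goal :=
  C28x0r ++
  (C28x1r ++
  (C28x2r ++
  (C28x3r ++
  (C28x4r ++
  (C28x5r ++
  (C28x6r ++
  (C28x7r ++
  (C28x8r))))))))

def C28xC : List Goal :=
  C28x0o ++
  (C28x1o ++
  (C28x2o ++
  (C28x3o ++
  (C28x4o ++
  (C28x5o ++
  (C28x6o ++
  (C28x7o ++
  (C28x8o))))))))

def C28xouts : List Goal := C28xown ++ C28xC

theorem C28x_groups : Imp 0 41 C28xR C28xC :=
    Imp.app (Imp.of_check C28x0_ok (Or.inl rfl) le_rfl) (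
    Imp.app (Imp.of_check C28x1_ok (Or.inl rfl) le_rfl) (
    Imp.app (Imp.of_check C28x2_ok (Or.inl rfl) le_rfl) (
    Imp.app (Imp.of_check C28x3_ok (Or.inl rfl) le_rfl) (
    Imp.app (Imp.of_check C28x4_ok (Or.inl rfl) le_rfl) (
    Imp.app (Imp.of_check C28x5_ok (Or.inl rfl) le_rfl) (
    Imp.app (Imp.of_check C28x6_ok (Or.inl rfl) le_rfl) (
    Imp.app (Imp.of_check C28x7_ok (Or.inl rfl) le_rfl) (
    Imp.of_check C28x8_ok (Or.inl rfl) le_rfl))))))))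

theorem C28x_imp : Imp 0 41 C28xMr C28xouts :=
  (Imp.of_check C28xM_ok (Or.inl rfl) le_rfl).glue C28x_groups (by decide +kernel)

end Pool.Agent.MP1f45fc.T.TreeC
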