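import Pool.Agent.Lib.MP_1f45fc_nt.T.Assemble

set_option autoImplicit false

namespace Pool.Agent.MP1f45fc.T.TreeC

def C3r : List Goal := [⟨[0, 0, 1, 0, 0, 1, 0, 0, 1, 0, 0, 1, 0, 0, 1, 0], 19, [0, 1, 0, 0, 1, 0, 0, 1, 0, 0, 1, 0, 0, 1, 0, 0, 1, 0, 0], 8618251311, 8703398824⟩,
  ⟨[0, 0, 1, 0, 0, 1, 0, 0, 1, 0, 0, 1, 0, 0, 1, 0], 19, [1, 0, 0, 1, 0, 0, 1, 0, 0, 1, 0, 0, 1, 0, 0, 1, 0, 0, 1], 8618251311, 8703398824⟩,
  ⟨[0, 0, 1, 0, 0, 1, 0, 0, 1, 0, 0, 1, 0, 0, 1, 0], 19, [0, 0, 1, 0, 0, 1, 0, 0, 1, 0, 0, 1, 0, 0, 1, 0, 0, 1, 0], 8618251311, 8703398824⟩]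

def C3o : List Goal := [⟨[0, 0, 1, 0, 0, 1, 0, 0, 1, 0, 0, 1, 0, 0, 1, 0], 19, [0, 1, 0, 0, 1, 0, 0, 1, 0, 0, 1, 0, 0, 1, 0, 0, 1, 0, 0, 1], 8618251311, 8703398824⟩,
  ⟨[0, 0, 1, 0, 0, 1, 0, 0, 1, 0, 0, 1, 0, 0, 1, 0], 19, [1, 0, 0, 1, 0, 0, 1, 0, 0, 1, 0, 0, 1, 0, 0, 1, 0, 0, 1, 0], 8618251311, 8703398824⟩,
  ⟨[0, 0, 1, 0, 0, 1, 0, 0, 1, 0, 0, 1, 0, 0, 1, 0], 19, [0, 0, 1, 0, 0, 1, 0, 0, 1, 0, 0, 1, 0, 0, 1, 0, 0, 1, 0, 0], 8618251311, 8703398824⟩]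

def C3p0 : List I := [.B 1 1 2 (.su 3) (.M [(71938, 75906)]),
  .O,
  .B 1 1 1 (.su 1) (.M [(2304259, 2304131)]),
  .B 1 1 1 (.su 2) (.M [(2359765253, 2493982853)]),
  .B 1 2 1 (.su 3) (.M [(75512490246, 79803394182)]),
  .B 1 1 2 (.su 1) (.M [(69878295614790026, 92537172848084874)]),
  .Q 74950056326,
  .B 1 1 1 (.su 1) (.M [(2231756372010318987, 3726920387391584139)]),
  .Q 68244956321544,
  .B 1 0 2 .nn (.M [(2304259, 2435203)]),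
  .O,
  .B 1 0 2 .nn (.M [(75235670406, 84232308870)]),
  .B 1 1 1 (.su 3) (.M [(2524344628029880715, 87897371217819530)]),
  .B 1 1 1 (.su 3) (.M [(2465038562433289, 83384833763510154)]),
  .B 1 0 1 .nn (.M [(80779028096947927436, 2826077148566058891)]),
  .Q 80495292661761132172,
  .B 1 1 2 (.su 3) (.M [(2359765253, 2493982853)]),
  .B 1 1 1 (.su 3) (.M [(69878295488825610, 83244100565927818)]),
  .Q 80779028096796404236,
  .B 1 1 1 (.su 1) (.M [(2226961930540640779, 2984869176195082123)]),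
  .B 1 1 2 (.su 2) (.M [(2236105318203463947, 79526172806)]),
  .Q 77036469033352,
  .B 1 2 2 (.su 3) (.M [(71406751399098403212, 2821573411499739019)]),
  .Q 80923147669908552076,
  .B 1 2 1 (.su 1) (.M [(2469853225367817, 2619382515964041)]),
  .Q 71555374859864577676,
  .B 1 0 2 .nn (.M [(2300163, 2431107)]),
  .O,
  .B 1 1 2 (.su 3) (.M [(73738500, 73734276)]),
  .B 1 0 1 .nn (.M [(69873760137968138, 92264494094419850)]),
  .B 1 1 1 (.su 3) (.M [(2236250595476314507, 2816933472430655371)]),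
  .B 1 1 1 (.su 3) (.M [(2236105597510568459, 2974695936399312779)]),
  .Q 71420262464671008268,
  .B 1 1 1 (.su 1) (.M [(75374213382, 79941671046)]),
  .B 1 1 1 (.su 2) (.M [(2231606400518932875, 2831311103221364619)]),
  .B 1 2 2 (.su 3) (.M [(2350975237, 2485192837)]),
  .Q 74950056326,
  .B 1 2 0 (.su 1) (.M [(71411404962345089676, 100243458838883268492)])]

theorem C3_ok : check ⟨32, true, 0, 21⟩
    (C3p0) C3r C3o = true := by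
  decide +kernel

theorem C3_imp : Imp 0 21 C3r C3o :=
  Imp.of_check C3_ok (Or.inl rfl) le_rfl

end Pool.Agent.MP1f45fc.T.TreeC
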