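import Pool.Agent.Lib.MP_1f45fc_nt.TreeC.C1
import Pool.Agent.Lib.MP_1f45fc_nt.TreeC.C2
import Pool.Agent.Lib.MP_1f45fc_nt.TreeC.C3
import Pool.Agent.Lib.MP_1f45fc_nt.TreeC.C4
import Pool.Agent.Lib.MP_1f45fc_nt.TreeC.C5
import Pool.Agent.Lib.MP_1f45fc_nt.TreeC.C6
import Pool.Agent.Lib.MP_1f45fc_nt.TreeC.C7
import Pool.Agent.Lib.MP_1f45fc_nt.TreeC.C8
import Pool.Agent.Lib.MP_1f45fc_nt.TreeC.C9
import Pool.Agent.Lib.MP_1f45fc_nt.TreeC.C10
import Pool.Agent.Lib.MP_1f45fc_nt.TreeC.C11
import Pool.Agent.Lib.MP_1f45fc_nt.TreeC.C12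
import Pool.Agent.Lib.MP_1f45fc_nt.TreeC.C13
import Pool.Agent.Lib.MP_1f45fc_nt.TreeC.C14
import Pool.Agent.Lib.MP_1f45fc_nt.TreeC.C15
import Pool.Agent.Lib.MP_1f45fc_nt.TreeC.C16
import Pool.Agent.Lib.MP_1f45fc_nt.TreeC.C17
import Pool.Agent.Lib.MP_1f45fc_nt.TreeC.C18
import Pool.Agent.Lib.MP_1f45fc_nt.TreeC.C19
import Pool.Agent.Lib.MP_1f45fc_nt.TreeC.C20
import Pool.Agent.Lib.MP_1f45fc_nt.TreeC.C21
import Pool.Agent.Lib.MP_1f45fc_nt.TreeC.C22xG
import Pool.Agent.Lib.MP_1f45fc_nt.TreeC.C23xG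
import Pool.Agent.Lib.MP_1f45fc_nt.TreeC.C24xG
import Pool.Agent.Lib.MP_1f45fc_nt.TreeC.C25xG
import Pool.Agent.Lib.MP_1f45fc_nt.TreeC.C26xG
import Pool.Agent.Lib.MP_1f45fc_nt.TreeC.C27xG
import Pool.Agent.Lib.MP_1f45fc_nt.TreeC.C28xG

set_option autoImplicit false

namespace Pool.Agent.MP1f45fc.T.TreeC

/-- Length of the comb after which tree A stops. -/
def Dc (e : ℕ) : ℕ := if e ≤ 6 then 20 else if e ≤ 10 then 24 else if e ≤ 15 then 30 else 40

/-- Tree A' for the period `e`. -/
def Ok (e : ℕ) : Prop :=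
  ∃ (KC : ℕ) (rs os : List Goal), e ≤ Dc e ∧ KC ≤ Dc e + 1 ∧ Imp 0 KC rs os ∧
    rootsC e (Dc e) rs = true ∧ os.all (okC e) = true

theorem ok : ∀ e, 1 ≤ e → e ≤ 28 → Ok e := by
  intro e h1 h2
  interval_cases e
  · exact ⟨21, C1r, C1o, by decide, by decide, C1_imp, by decide +kernel, by decide +kernel⟩
  · exact ⟨21, C2r, C2o, by decide, by decide, C2_imp, by decide +kernel, by decide +kernel⟩
  · exact ⟨21, C3r, C3o, by decide, by decide, C3_imp, by decide +kernel, by decide +kernel⟩
  · exact ⟨21, C4r, C4o, by decide, by decide, C4_imp, by decide +kernel, by decide +kernel⟩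
  · exact ⟨21, C5r, C5o, by decide, by decide, C5_imp, by decide +kernel, by decide +kernel⟩
  · exact ⟨21, C6r, C6o, by decide, by decide, C6_imp, by decide +kernel, by decide +kernel⟩
  · exact ⟨25, C7r, C7o, by decide, by decide, C7_imp, by decide +kernel, by decide +kernel⟩
  · exact ⟨25, C8r, C8o, by decide, by decide, C8_imp, by decide +kernel, by decide +kernel⟩
  · exact ⟨25, C9r, C9o, by decide, by decide, C9_imp, by decide +kernel, by decide +kernel⟩
  · exact ⟨25, C10r, C10o, by decide, by decide, C10_imp, by decide +kernel, by decide +kernel⟩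
  · exact ⟨31, C11r, C11o, by decide, by decide, C11_imp, by decide +kernel, by decide +kernel⟩
  · exact ⟨31, C12r, C12o, by decide, by decide, C12_imp, by decide +kernel, by decide +kernel⟩
  · exact ⟨31, C13r, C13o, by decide, by decide, C13_imp, by decide +kernel, by decide +kernel⟩
  · exact ⟨31, C14r, C14o, by decide, by decide, C14_imp, by decide +kernel, by decide +kernel⟩
  · exact ⟨31, C15r, C15o, by decide, by decide, C15_imp, by decide +kernel, by decide +kernel⟩
  · exact ⟨41, C16r, C16o, by decide, by decide, C16_imp, by decide +kernel, by decide +kernel⟩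
  · exact ⟨41, C17r, C17o, by decide, by decide, C17_imp, by decide +kernel, by decide +kernel⟩
  · exact ⟨41, C18r, C18o, by decide, by decide, C18_imp, by decide +kernel, by decide +kernel⟩
  · exact ⟨41, C19r, C19o, by decide, by decide, C19_imp, by decide +kernel, by decide +kernel⟩
  · exact ⟨41, C20r, C20o, by decide, by decide, C20_imp, by decide +kernel, by decide +kernel⟩
  · exact ⟨41, C21r, C21o, by decide, by decide, C21_imp, by decide +kernel, by decide +kernel⟩
  · exact ⟨41, C22xMr, C22xouts, by decide, by decide, C22x_imp, by decide +kernel,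
      by decide +kernel⟩
  · exact ⟨41, C23xMr, C23xouts, by decide, by decide, C23x_imp, by decide +kernel,
      by decide +kernel⟩
  · exact ⟨41, C24xMr, C24xouts, by decide, by decide, C24x_imp, by decide +kernel,
      by decide +kernel⟩
  · exact ⟨41, C25xMr, C25xouts, by decide, by decide, C25x_imp, by decide +kernel,
      by decide +kernel⟩
  · exact ⟨41, C26xMr, C26xouts, by decide, by decide, C26x_imp, by decide +kernel,
      by decide +kernel⟩
  · exact ⟨41, C27xMr, C27xouts, by decide, by decide, C27x_imp, by decide +kernel,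
      by decide +kernel⟩
  · exact ⟨41, C28xMr, C28xouts, by decide, by decide, C28x_imp, by decide +kernel,
      by decide +kernel⟩

end Pool.Agent.MP1f45fc.T.TreeC
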