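import Pool.Agent.Lib.MP_1f45fc_nt.T.Assemble

set_option autoImplicit false

namespace Pool.Agent.MP1f45fc.T.TreeC

def C1r : List Goal := [⟨[1, 1, 1, 1, 1, 1, 1, 1, 1, 1, 1, 1, 1, 1, 1, 1], 19, [1, 1, 1, 1, 1, 1, 1, 1, 1, 1, 1, 1, 1, 1, 1, 1, 1, 1, 1], 8618251311, 8703398824⟩]

def C1o : List Goal := [⟨[1, 1, 1, 1, 1, 1, 1, 1, 1, 1, 1, 1, 1, 1, 1, 1], 19, [1, 1, 1, 1, 1, 1, 1, 1, 1, 1, 1, 1, 1, 1, 1, 1, 1, 1, 1, 1], 8618251311, 8703398824⟩]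

def C1p0 : List I := [.B 1 1 2 (.su 1) (.M [(71938, 75906)]),
  .O,
  .B 1 2 1 (.su 1) (.M [(2304259, 2435203)]),
  .B 1 2 1 (.su 1) (.M [(2231460981235071371, 88332915257046922)]),
  .B 1 2 2 (.su 1) (.M [(73468164, 77662340)]),
  .B 1 2 1 (.su 1) (.M [(75473693830, 3510379161735)]),
  .Q 2411412265351,
  .B 1 3 1 (.su 1) (.M [(71406751399509305612, 79794743430)]),
  .B 1 3 1 (.su 1) (.M [(71406755938895854220, 99095445133137475468)]),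
  .Q 68111938426504]

theorem C1_ok : check ⟨32, true, 0, 21⟩
    (C1p0) C1r C1o = true := by
  decide +kernel

theorem C1_imp : Imp 0 21 C1r C1o :=
  Imp.of_check C1_ok (Or.inl rfl) le_rfl

end Pool.Agent.MP1f45fc.T.TreeC
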