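import Pool.Agent.Lib.MP_1f45fc_nt.T.Assemble
import Pool.Agent.Lib.MP_1f45fc_nt.TreeC.C23x0
import Pool.Agent.Lib.MP_1f45fc_nt.TreeC.C23x1
import Pool.Agent.Lib.MP_1f45fc_nt.TreeC.C23x2
import Pool.Agent.Lib.MP_1f45fc_nt.TreeC.C23x3
import Pool.Agent.Lib.MP_1f45fc_nt.TreeC.C23xM

set_option autoImplicit false

namespace Pool.Agent.MP1f45fc.T.TreeC

def C23xown : List Goal := [⟨[0, 0, 0, 0, 0, 0, 0, 0, 0, 0, 0, 0, 0, 0, 0, 0, 0, 0, 0, 0, 0, 0, 1, 0, 0, 0, 0, 0, 0, 0, 0, 0, 0, 0, 0, 0], 38, [0, 0, 0, 0, 0, 0, 0, 0, 0, 0, 0, 0, 0, 0, 0, 1, 0, 0, 0, 0, 0, 0, 0, 0, 0, 0, 0, 0, 0, 0, 0, 0, 0, 0, 0, 0, 0, 0, 1], 8618253967, 8703398820⟩]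

def C23xR : List Goal :=
  C23x0r ++
  (C23x1r ++
  (C23x2r ++
  (C23x3r)))

def C23xC : List Goal :=
  C23x0o ++
  (C23x1o ++
  (C23x2o ++
  (C23x3o)))

def C23xouts : List Goal := C23xown ++ C23xC

theorem C23x_groups : Imp 0 41 C23xR C23xC :=
    Imp.app (Imp.of_check C23x0_ok (Or.inl rfl) le_rfl) (
    Imp.app (Imp.of_check C23x1_ok (Or.inl rfl) le_rfl) (
    Imp.app (Imp.of_check C23x2_ok (Or.inl rfl) le_rfl) (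
    Imp.of_check C23x3_ok (Or.inl rfl) le_rfl)))

theorem C23x_imp : Imp 0 41 C23xMr C23xouts :=
  (Imp.of_check C23xM_ok (Or.inl rfl) le_rfl).glue C23x_groups (by decide +kernel)

end Pool.Agent.MP1f45fc.T.TreeC
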